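import Mathlib
import Pool.Agent.Y72.Ko.Stm

/-! Job KO-GLO (helper339 for helper72): a bound on pieces is a global bound. -/

set_option autoImplicit false

namespace Pool.Agent.Y339.KO

open Pool.Agent.Y72.Ko

lemma abs_ls_iff (f : unitInterval ≃o unitInterval) (K : ℝ) {x y : unitInterval} (h : x < y) :
    |ls f x y| ≤ K ↔ Real.exp (-K) * ((y : ℝ) - x) ≤ (f y : ℝ) - f x ∧
      (f y : ℝ) - f x ≤ Real.exp K * ((y : ℝ) - x) := by
  have h2 : (0 : ℝ) < (y : ℝ) - x := sub_pos.2 (Subtype.coe_lt_coe.2 h)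
  have hq := quo_pos f h
  unfold ls
  rw [abs_le, Real.le_log_iff_exp_le hq, Real.log_le_iff_le_exp hq, le_div_iff₀ h2, div_le_iff₀ h2]

theorem glo : Pool.Agent.Y72.Ko.S_GLO := by
  intro f B K hB hloc
  have key : ∀ n : ℕ, ∀ x y : unitInterval, x < y → (B ∩ Set.Ioo x y).ncard ≤ n →
      Real.exp (-K) * ((y : ℝ) - x) ≤ (f y : ℝ) - f x ∧
      (f y : ℝ) - f x ≤ Real.exp K * ((y : ℝ) - x) := by
    intro n
    induction n with
    | zero =>
      intro x y hxy hn
      have hfin : (B ∩ Set.Ioo x y).Finite := hB.inter_of_left _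
      have h0 : B ∩ Set.Ioo x y = ∅ := (Set.ncard_eq_zero hfin).1 (Nat.le_zero.1 hn)
      apply (abs_ls_iff f K hxy).1
      apply hloc x y _ hxy
      intro t ht hlt
      have h1 : t ∈ B ∩ Set.Ioo x y := ⟨ht, hlt⟩
      rw [h0] at h1
      exact h1
    | succ n ih =>
      intro x y hxy hn
      by_cases hex : ∃ t ∈ B, x < t ∧ t < y
      · obtain ⟨t, htB, hxt, hty⟩ := hex
        have hfin : (B ∩ Set.Ioo x y).Finite := hB.inter_of_left _
        have htmem : t ∈ B ∩ Set.Ioo x y := ⟨htB, hxt, hty⟩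
        have h1 : (B ∩ Set.Ioo x t).ncard < (B ∩ Set.Ioo x y).ncard := by
          apply Set.ncard_lt_ncard _ hfin
          refine (Set.ssubset_iff_of_subset ?_).2 ⟨t, htmem, fun h => lt_irrefl t h.2.2⟩
          rintro s ⟨hs, hs1, hs2⟩
          exact ⟨hs, hs1, hs2.trans hty⟩
        have h2 : (B ∩ Set.Ioo t y).ncard < (B ∩ Set.Ioo x y).ncard := by
          apply Set.ncard_lt_ncard _ hfin
          refine (Set.ssubset_iff_of_subset ?_).2 ⟨t, htmem, fun h => lt_irrefl t h.2.1⟩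
          rintro s ⟨hs, hs1, hs2⟩
          exact ⟨hs, hxt.trans hs1, hs2⟩
        obtain ⟨a1, a2⟩ := ih x t hxt (by omega)
        obtain ⟨b1, b2⟩ := ih t y hty (by omega)
        constructor
        · nlinarith
        · nlinarith
      · apply (abs_ls_iff f K hxy).1
        apply hloc x y _ hxy
        intro t ht hlt
        exact hex ⟨t, ht, hlt⟩
  intro x y hxy
  exact (abs_ls_iff f K hxy).2 (key _ x y hxy le_rfl)

end Pool.Agent.Y339.KO
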